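import Pool.Agent.KHG77.Final

/-!
# MP_f5afab_co: Maker wins the bichromatic k-hole game with bias 1:2 for every k ≥ 3

The set `K` of Q1, the integers `k ≥ 3` for which Breaker has a winning strategy in `G_k`, is
empty; for every `k ≥ 3` Maker has a winning strategy.
-/

namespace Pool.Agent.Results.MP_f5afab_co.MakerWinsEveryK

open Pool.Agent.KHG77

/-- `K` is empty, and Maker has a winning strategy in `G_k` for every `k ≥ 3`. -/
theorem result :
    breakerSet = ∅ ∧ ∀ k : ℕ, 3 ≤ k → ∃ μ : MakerStrategy, MakerWinning k μ :=
  main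

end Pool.Agent.Results.MP_f5afab_co.MakerWinsEveryK
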